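import Pool.Agent.BKW.Stmts

/-! # BKW, module CLO (helper52) -/

set_option autoImplicit false

open Real

namespace Pool.Agent.BKW.H52

theorem clo (hSiz : SizStmt) : CloStmt := by
  intro N L B a a0 b b0 l hD hL p H0 h μ s hp hμ hs
  obtain ⟨hsum, hth⟩ := hSiz N L B a a0 b b0 l hD hL
  have hS := hsum p H0 h μ hp hμ
  have hB1 := hD.B1
  have hb0 : b0.natAbs = B := hD.hb0
  have hl := hD.l1
  have hb0r : (1 : ℝ) ≤ |(b0 : ℝ)| := by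
    have h1 : (b0.natAbs : ℝ) = |(b0 : ℝ)| := by
      rw [Nat.cast_natAbs]; simp
    rw [← h1, hb0]
    exact_mod_cast hB1
  set Λ : ℝ := Lam a a0 b b0 with hΛ
  have key : ∀ u : Ix N L,
      |(p u : ℝ) * ((∏ j, cc b b0 u j ^ μ j : ℤ) : ℝ) * exp ((s : ℝ) * th a b b0 u) -
        (p u : ℝ) * ((∏ j, cc b b0 u j ^ μ j : ℤ) : ℝ) * ((mon a a0 u : ℕ) : ℝ) ^ s| ≤
      |(p u : ℝ) * ((∏ j, cc b b0 u j ^ μ j : ℤ) : ℝ)| *
        (exp (((N : ℝ) + 1) * L * l * s) * (2 * s * L * |Λ|)) := by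
    intro u
    obtain ⟨_, h2, h3, h4⟩ := hth u
    have hm0 : (0 : ℝ) < (mon a a0 u : ℕ) := by exact_mod_cast h3
    set w : ℝ := -((s : ℝ) * ((u.2 : ℕ) : ℝ) * Λ / (b0 : ℝ)) with hw
    have e1 : exp ((s : ℝ) * th a b b0 u) = ((mon a a0 u : ℕ) : ℝ) ^ s * exp w := by
      rw [h2]
      have : (s : ℝ) * (log ((mon a a0 u : ℕ) : ℝ) - ((u.2 : ℕ) : ℝ) * Λ / (b0 : ℝ)) =
          (s : ℝ) * log ((mon a a0 u : ℕ) : ℝ) + w := by
        rw [hw]; ring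
      rw [this, exp_add, exp_nat_mul, exp_log hm0]
    have hwle : |w| ≤ (s : ℝ) * L * |Λ| := by
      rw [hw, abs_neg, abs_div, abs_mul, abs_mul, Nat.abs_cast, Nat.abs_cast]
      have hu : ((u.2 : ℕ) : ℝ) ≤ L := by exact_mod_cast u.2.2.le
      calc (s : ℝ) * ((u.2 : ℕ) : ℝ) * |Λ| / |(b0 : ℝ)| ≤ (s : ℝ) * ((u.2 : ℕ) : ℝ) * |Λ| :=
            div_le_self (by positivity) hb0r
        _ ≤ (s : ℝ) * L * |Λ| := by gcongr
    have hw1 : |w| ≤ 1 := hwle.trans hs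
    have hexp : |exp w - 1| ≤ 2 * |w| := Real.abs_exp_sub_one_le hw1
    have hmon : ((mon a a0 u : ℕ) : ℝ) ^ s ≤ exp (((N : ℝ) + 1) * L * l * s) := by
      have : ((mon a a0 u : ℕ) : ℝ) ^ s = exp ((s : ℝ) * log ((mon a a0 u : ℕ) : ℝ)) := by
        rw [exp_nat_mul, exp_log hm0]
      rw [this]
      apply exp_le_exp.2
      have hs0 : (0 : ℝ) ≤ s := Nat.cast_nonneg s
      nlinarith
    have e2 : (p u : ℝ) * ((∏ j, cc b b0 u j ^ μ j : ℤ) : ℝ) * exp ((s : ℝ) * th a b b0 u) -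
        (p u : ℝ) * ((∏ j, cc b b0 u j ^ μ j : ℤ) : ℝ) * ((mon a a0 u : ℕ) : ℝ) ^ s =
        ((p u : ℝ) * ((∏ j, cc b b0 u j ^ μ j : ℤ) : ℝ)) *
          (((mon a a0 u : ℕ) : ℝ) ^ s * (exp w - 1)) := by
      rw [e1]; ring
    rw [e2, abs_mul]
    apply mul_le_mul_of_nonneg_left _ (abs_nonneg _)
    rw [abs_mul, abs_of_nonneg (by positivity : (0 : ℝ) ≤ ((mon a a0 u : ℕ) : ℝ) ^ s)]
    apply mul_le_mul hmon _ (abs_nonneg _) (exp_pos _).le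
    calc |exp w - 1| ≤ 2 * |w| := hexp
      _ ≤ 2 * ((s : ℝ) * L * |Λ|) := by gcongr
      _ = 2 * s * L * |Λ| := by ring
  have e3 : ff a b b0 p μ 0 s - ((FF a a0 b b0 p μ s : ℤ) : ℝ) =
      ∑ u : Ix N L, ((p u : ℝ) * ((∏ j, cc b b0 u j ^ μ j : ℤ) : ℝ) *
        exp ((s : ℝ) * th a b b0 u) -
        (p u : ℝ) * ((∏ j, cc b b0 u j ^ μ j : ℤ) : ℝ) * ((mon a a0 u : ℕ) : ℝ) ^ s) := by
    rw [Finset.sum_sub_distrib]
    congr 1
    · simp only [ff, pow_zero, mul_one]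
    · simp only [FF]
      push_cast
      rfl
  rw [e3]
  calc _ ≤ ∑ u : Ix N L, |((p u : ℝ) * ((∏ j, cc b b0 u j ^ μ j : ℤ) : ℝ) *
        exp ((s : ℝ) * th a b b0 u) -
        (p u : ℝ) * ((∏ j, cc b b0 u j ^ μ j : ℤ) : ℝ) * ((mon a a0 u : ℕ) : ℝ) ^ s)| :=
        Finset.abs_sum_le_sum_abs _ _
    _ ≤ ∑ u : Ix N L, |(p u : ℝ) * ((∏ j, cc b b0 u j ^ μ j : ℤ) : ℝ)| *
        (exp (((N : ℝ) + 1) * L * l * s) * (2 * s * L * |Λ|)) :=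
        Finset.sum_le_sum fun u _ => key u
    _ = (∑ u : Ix N L, |(p u : ℝ) * ((∏ j, cc b b0 u j ^ μ j : ℤ) : ℝ)|) *
        (exp (((N : ℝ) + 1) * L * l * s) * (2 * s * L * |Λ|)) := by
        rw [Finset.sum_mul]
    _ ≤ exp (logC N L h B H0) *
        (exp (((N : ℝ) + 1) * L * l * s) * (2 * s * L * |Λ|)) := by
        apply mul_le_mul_of_nonneg_right hS (by positivity)
    _ = exp (logC N L h B H0 + ((N : ℝ) + 1) * L * l * s) * (2 * s * L * |Λ|) := by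
        rw [exp_add]; ring

end Pool.Agent.BKW.H52
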