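import Pool.Agent.BKW.Stmts
import Pool.Agent.Helper2_SQR.Def
import Pool.Agent.Helper2_BKW.FIN

/-! # BKW: the final theorem with the explicit set (helper52) -/

set_option autoImplicit false

namespace Pool.Agent.BKW.H52

open FirstOrder FirstOrder.Language Pool.Agent.SqDef

theorem rig_iff_factors (y : ℕ) : Rig y ↔ (2 ≤ y ∧ ∀ m : ℕ, 2 ≤ m →
    m.primeFactors = y.primeFactors → (m - 1).primeFactors = (y - 1).primeFactors → m = y) := by
  constructor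
  · rintro ⟨hy, h⟩
    refine ⟨hy, fun m hm h1 h2 => h m hm ⟨fun q hq => ?_, fun q hq => ?_⟩⟩
    · have := Finset.ext_iff.1 h1 q
      simp only [Nat.mem_primeFactors] at this
      constructor
      · intro hd; exact (this.1 ⟨hq, hd, by omega⟩).2.1
      · intro hd; exact (this.2 ⟨hq, hd, by omega⟩).2.1
    · have := Finset.ext_iff.1 h2 q
      simp only [Nat.mem_primeFactors] at this
      constructor
      · intro hd; exact (this.1 ⟨hq, hd, by omega⟩).2.1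
      · intro hd; exact (this.2 ⟨hq, hd, by omega⟩).2.1
  · rintro ⟨hy, h⟩
    refine ⟨hy, fun m hm ht => h m hm ?_ ?_⟩
    · ext q
      simp only [Nat.mem_primeFactors]
      constructor
      · rintro ⟨hq, hd, _⟩; exact ⟨hq, (ht.1 q hq).1 hd, by omega⟩
      · rintro ⟨hq, hd, _⟩; exact ⟨hq, (ht.1 q hq).2 hd, by omega⟩
    · ext q
      simp only [Nat.mem_primeFactors]
      constructor
      · rintro ⟨hq, hd, _⟩; exact ⟨hq, (ht.2 q hq).1 hd, by omega⟩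
      · rintro ⟨hq, hd, _⟩; exact ⟨hq, (ht.2 q hq).2 hd, by omega⟩

/-- the count for all `n ≤ x` -/
theorem count (hRig : RigStmt) :
    ∃ C : ℝ, ∀ x : ℕ, 2 ≤ x →
      ({n : ℕ | n ≤ x ∧ ¬ (Rig n ∧ Rig (n ^ 2))}.ncard : ℝ) ≤
        C * x * Real.exp (-(Real.log x) ^ (1 / 9 : ℝ)) := by
  obtain ⟨C, hC⟩ := hRig
  refine ⟨C + 2 * Real.exp 1, fun x hx => ?_⟩
  have hx1 : (1 : ℝ) ≤ x := by exact_mod_cast (by omega : 1 ≤ x)
  have hx0 : (0 : ℝ) < x := by linarith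
  have hl0 : 0 ≤ Real.log x := Real.log_nonneg hx1
  set E : ℝ := Real.exp (-(Real.log x) ^ (1 / 9 : ℝ)) with hE
  have hsub : {n : ℕ | n ≤ x ∧ ¬ (Rig n ∧ Rig (n ^ 2))} ⊆
      ({0, 1} : Set ℕ) ∪ {n : ℕ | 2 ≤ n ∧ n ≤ x ∧ ¬ (Rig n ∧ Rig (n ^ 2))} := by
    rintro n ⟨hn, hne⟩
    rcases Nat.lt_or_ge n 2 with h | h
    · left
      interval_cases n <;> simp
    · right
      exact ⟨h, hn, hne⟩
  have hfin : (({0, 1} : Set ℕ) ∪
      {n : ℕ | 2 ≤ n ∧ n ≤ x ∧ ¬ (Rig n ∧ Rig (n ^ 2))}).Finite :=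
    (Set.toFinite _).union ((Set.finite_Iic x).subset fun n hn => hn.2.1)
  have h1 := (Set.ncard_le_ncard hsub hfin).trans (Set.ncard_union_le _ _)
  have h2 : ({0, 1} : Set ℕ).ncard ≤ 2 := by
    rw [Set.ncard_pair (by norm_num)]
  have h3 : ({n : ℕ | n ≤ x ∧ ¬ (Rig n ∧ Rig (n ^ 2))}.ncard : ℝ) ≤
      2 + ({n : ℕ | 2 ≤ n ∧ n ≤ x ∧ ¬ (Rig n ∧ Rig (n ^ 2))}.ncard : ℝ) := by
    exact_mod_cast h1.trans (Nat.add_le_add_right h2 _)
  have h4 := hC x hx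
  have h5 : (Real.log x) ^ (1 / 9 : ℝ) ≤ 1 + Real.log x := by
    rcases le_total (Real.log x) 1 with h | h
    · have := Real.rpow_le_one hl0 h (by norm_num : (0 : ℝ) ≤ 1 / 9)
      linarith
    · have := Real.rpow_le_rpow_of_exponent_le h (by norm_num : (1 / 9 : ℝ) ≤ 1)
      rw [Real.rpow_one] at this
      linarith
  have h6 : 1 ≤ Real.exp 1 * x * E := by
    have h7 : Real.exp (-(1 + Real.log x)) ≤ E := Real.exp_le_exp.2 (by linarith)
    calc (1 : ℝ) = Real.exp 1 * x * Real.exp (-(1 + Real.log x)) := by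
          rw [Real.exp_neg, Real.exp_add, Real.exp_log hx0]
          field_simp
      _ ≤ Real.exp 1 * x * E := mul_le_mul_of_nonneg_left h7 (by positivity)
  calc _ ≤ 2 + ({n : ℕ | 2 ≤ n ∧ n ≤ x ∧ ¬ (Rig n ∧ Rig (n ^ 2))}.ncard : ℝ) := h3
    _ ≤ 2 * (Real.exp 1 * x * E) + C * x * E := by linarith
    _ = (C + 2 * Real.exp 1) * x * E := by ring

/-- every arithmetical relation on the rigid numbers is definable -/
theorem defin {L : FirstOrder.Language.{0, 0}} [L.Structure ℕ] (σ : Sig L) (r : ℕ)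
    (R : Set (Fin r → ℕ)) (hR : Set.Definable (∅ : Set ℕ) arithLang R) :
    Set.Definable (∅ : Set ℕ) L {v : Fin r → ℕ | (∀ i, Rig (v i)) ∧ v ∈ R} := by
  have h := Pool.Agent.SQR.rig_definable σ 1 r R hR
  have he : {v : Fin r → ℕ | (∀ i, Pool.Agent.SQR.Rig 1 (v i)) ∧ v ∈ R} =
      {v : Fin r → ℕ | (∀ i, Rig (v i)) ∧ v ∈ R} := by
    ext v
    simp only [Set.mem_setOf_eq, Pool.Agent.BKW.H2.rig_iff]
  rw [he] at h
  exact h

end Pool.Agent.BKW.H52
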