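import Pool.Agent.BKW.Stmts

/-! # BKW, module RIG (helper52) -/

set_option autoImplicit false

open Real

namespace Pool.Agent.BKW.H52

/-- an exponent is at most twice the logarithm -/
theorem exp_le_log {q v m : ℕ} (hq : 2 ≤ q) (hm : 1 ≤ m) (h : q ^ v ≤ m) {Y : ℝ} {E : ℕ}
    (hY : log m ≤ Y) (hE : 2 * Y ≤ E) : v ≤ E := by
  have h2 : (2 : ℝ) ^ v ≤ m := by
    have h3 : 2 ^ v ≤ m := le_trans (Nat.pow_le_pow_left hq v) h
    exact_mod_cast h3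
  have hl : (v : ℝ) * log 2 ≤ log m := by
    rw [← Real.log_pow]
    exact Real.log_le_log (by positivity) h2
  have hln := Real.log_two_gt_d9
  have : (v : ℝ) ≤ E := by
    have hv : (0 : ℝ) ≤ v := Nat.cast_nonneg v
    nlinarith
  exact_mod_cast this

/-- the core: a twin is a power or the number is exceptional -/
theorem core (hSub : SubStmt) (hTwn : TwnStmt) (hEqp : EqpStmt) (x y r E : ℕ) (hr : 1 ≤ r)
    (hx : 2 ≤ x) (hE : 2 * Yb (3 * r) (x + 1) ≤ E) (n m : ℕ) (hn : 2 ≤ n) (hnx : n ≤ x)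
    (hm : 2 ≤ m) (h1 : ∀ q : ℕ, q.Prime → (q ∣ m ↔ q ∣ n))
    (h2 : ∀ q : ℕ, q.Prime → q ∣ n - 1 → q ∣ m - 1)
    (h3 : ∀ q : ℕ, q.Prime → q ∣ m - 1 → q ∣ n ^ 2 - 1)
    (a1 : n.primeFactors.card ≤ r) (a2 : (n - 1).primeFactors.card ≤ r)
    (a3 : (n + 1).primeFactors.card ≤ r) (a4 : ¬ n.primeFactors ⊆ Finset.Icc 1 y)
    (a5 : ∀ p : ℕ, y < p → ¬ p ^ 2 ∣ n) : m = n ∨ m = n ^ 2 ∨ n ∈ Bd x y r E := by
  have hn0 : n ≠ 0 := by omega
  have hm1 : 1 ≤ m := by omega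
  have hfac : n ^ 2 - 1 = (n - 1) * (n + 1) := by
    obtain ⟨k, rfl⟩ : ∃ k, n = k + 1 := ⟨n - 1, by omega⟩
    have : (k + 1) ^ 2 = (k + 1 - 1) * (k + 1 + 1) + 1 := by simp; ring
    omega
  -- the bound for `log m`
  have hsub : (m * (m - 1)).primeFactors ⊆
      n.primeFactors ∪ ((n - 1).primeFactors ∪ (n + 1).primeFactors) := by
    intro q hq
    rw [Nat.mem_primeFactors] at hq
    obtain ⟨qp, qd, _⟩ := hq
    simp only [Finset.mem_union, Nat.mem_primeFactors]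
    rcases qp.dvd_mul.1 qd with h | h
    · exact Or.inl ⟨qp, (h1 q qp).1 h, hn0⟩
    · have h4 := h3 q qp h
      rw [hfac] at h4
      rcases qp.dvd_mul.1 h4 with h5 | h5
      · exact Or.inr (Or.inl ⟨qp, h5, by omega⟩)
      · exact Or.inr (Or.inr ⟨qp, h5, by omega⟩)
  have hcard : (m * (m - 1)).primeFactors.card ≤ 3 * r := by
    refine (Finset.card_le_card hsub).trans ?_
    refine (Finset.card_union_le _ _).trans ?_
    have := Finset.card_union_le (n - 1).primeFactors (n + 1).primeFactors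
    omega
  have hle : ∀ q ∈ (m * (m - 1)).primeFactors, q ≤ x + 1 := by
    intro q hq
    have h4 := hsub hq
    simp only [Finset.mem_union, Nat.mem_primeFactors] at h4
    rcases h4 with ⟨_, h5, _⟩ | ⟨_, h5, _⟩ | ⟨_, h5, _⟩
    · exact (Nat.le_of_dvd (by omega) h5).trans (by omega)
    · exact (Nat.le_of_dvd (by omega) h5).trans (by omega)
    · exact (Nat.le_of_dvd (by omega) h5).trans (by omega)
  have hlog : log m ≤ Yb (3 * r) (x + 1) := hSub m (3 * r) (x + 1) hm (by omega) (by omega) hcard hle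
  -- the large prime
  obtain ⟨p, hp, hpy⟩ : ∃ p ∈ n.primeFactors, y < p := by
    by_contra hcon
    push Not at hcon
    exact a4 (fun q hq => Finset.mem_Icc.2 ⟨(Nat.prime_of_mem_primeFactors hq).one_le, hcon q hq⟩)
  rw [Nat.mem_primeFactors] at hp
  obtain ⟨pp, pd, _⟩ := hp
  obtain ⟨e, h', he1, hh1, hme, hpf, hdv⟩ := hTwn n m p hn hm pp pd (a5 p hpy) h1 h2
  have hnp : n = p * (n / p) := (Nat.mul_div_cancel' pd).symm
  have hpe : 1 ≤ p ^ e := Nat.one_le_pow _ _ pp.pos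
  by_cases hh : h' = (n / p) ^ e
  · -- `m = n ^ e`
    have hmn : m = n ^ e := by
      rw [hme, hh, ← mul_pow, Nat.mul_div_cancel' pd]
    have he2 : e ≤ 2 := hEqp n e hn he1 (fun q qp qd => h3 q qp (by rw [hmn]; exact qd))
    have : e = 1 ∨ e = 2 := by omega
    rcases this with rfl | rfl
    · left; rw [hmn, pow_one]
    · right; left; exact hmn
  · right; right
    refine ⟨hn, hnx, a2, p, n / p, e, h', pp, hpy, hnp, ?_, he1, ?_, hh1, hpf, ?_, hh, hdv⟩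
    · refine (Finset.card_le_card ?_).trans a1
      exact Nat.primeFactors_mono (Nat.div_dvd_of_dvd pd) hn0
    · refine exp_le_log pp.two_le hm1 ?_ hlog hE
      rw [hme]
      exact Nat.le_mul_of_pos_right _ hh1
    · intro q
      by_cases qp : q.Prime
      · refine exp_le_log qp.two_le hm1 ?_ hlog hE
        have h5 : q ^ h'.factorization q ≤ h' := Nat.ordProj_le q (by omega)
        refine h5.trans ?_
        rw [hme]
        exact Nat.le_mul_of_pos_left _ hpe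
      · rw [Nat.factorization_eq_zero_of_not_prime _ qp]; omega

/-- the exceptional set is contained in seven sets -/
theorem cover (hSub : SubStmt) (hTwn : TwnStmt) (hEqp : EqpStmt) (hMrs : MrsStmt)
    (x y r E : ℕ) (hr : 1 ≤ r) (hx : 2 ≤ x) (hE : 2 * Yb (3 * r) (x + 1) ≤ E) :
    {n : ℕ | 2 ≤ n ∧ n ≤ x ∧ ¬ (Rig n ∧ Rig (n ^ 2))} ⊆
      {n : ℕ | 1 ≤ n ∧ n ≤ x ∧ r < n.primeFactors.card} ∪
      {n : ℕ | 2 ≤ n ∧ n ≤ x ∧ r < (n - 1).primeFactors.card} ∪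
      {n : ℕ | 1 ≤ n ∧ n ≤ x ∧ r < (n + 1).primeFactors.card} ∪
      {k : ℕ | 1 ≤ k ∧ k ≤ x ∧ k.primeFactors ⊆ Finset.Icc 1 y ∧ k.primeFactors.card ≤ r} ∪
      {n : ℕ | 1 ≤ n ∧ n ≤ x ∧ ∃ p : ℕ, y < p ∧ p ^ 2 ∣ n} ∪
      {n : ℕ | n ≤ x ∧ ∃ a : ℕ, n + 1 = 2 ^ a} ∪ Bd x y r E := by
  rintro n ⟨hn, hnx, hbad⟩
  simp only [Set.mem_union, Set.mem_setOf_eq]
  by_contra hcon
  push Not at hcon
  obtain ⟨⟨⟨⟨⟨⟨c1, c2⟩, c3⟩, c4⟩, c5⟩, c6⟩, c7⟩ := hcon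
  have a1 : n.primeFactors.card ≤ r := c1 (by omega) hnx
  have a2 : (n - 1).primeFactors.card ≤ r := c2 hn hnx
  have a3 : (n + 1).primeFactors.card ≤ r := c3 (by omega) hnx
  have a4 : ¬ n.primeFactors ⊆ Finset.Icc 1 y := by
    intro h
    have := c4 (by omega) hnx h
    omega
  have a5 : ∀ p : ℕ, y < p → ¬ p ^ 2 ∣ n := c5 (by omega) hnx
  have a6 : ∀ a : ℕ, n + 1 ≠ 2 ^ a := c6 hnx
  have hfac : n ^ 2 - 1 = (n - 1) * (n + 1) := by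
    obtain ⟨k, rfl⟩ : ∃ k, n = k + 1 := ⟨n - 1, by omega⟩
    have : (k + 1) ^ 2 = (k + 1 - 1) * (k + 1 + 1) + 1 := by simp; ring
    omega
  have hd : n - 1 ∣ n ^ 2 - 1 := by rw [hfac]; exact Dvd.intro _ rfl
  have hnot : ¬ ∀ q : ℕ, q.Prime → q ∣ n ^ 2 - 1 → q ∣ n - 1 := by
    intro h
    obtain ⟨a, ha⟩ := hMrs n hn h
    exact a6 a ha
  apply hbad
  have hn2 : 2 ≤ n ^ 2 := by nlinarith
  refine ⟨⟨hn, fun m hm htw => ?_⟩, ⟨hn2, fun m hm htw => ?_⟩⟩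
  · rcases core hSub hTwn hEqp x y r E hr hx hE n m hn hnx hm htw.1
      (fun q qp qd => (htw.2 q qp).2 qd)
      (fun q qp qd => ((htw.2 q qp).1 qd).trans hd) a1 a2 a3 a4 a5 with h | h | h
    · exact h
    · exfalso
      apply hnot
      intro q qp qd
      exact (htw.2 q qp).1 (by rw [h]; exact qd)
    · exact absurd h c7
  · have h1 : ∀ q : ℕ, q.Prime → (q ∣ m ↔ q ∣ n) := by
      intro q qp
      rw [htw.1 q qp]
      exact ⟨fun h => qp.dvd_of_dvd_pow h, fun h => h.trans (dvd_pow_self n (by norm_num))⟩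
    rcases core hSub hTwn hEqp x y r E hr hx hE n m hn hnx hm h1
      (fun q qp qd => (htw.2 q qp).2 (qd.trans hd))
      (fun q qp qd => (htw.2 q qp).1 qd) a1 a2 a3 a4 a5 with h | h | h
    · exfalso
      apply hnot
      intro q qp qd
      have := (htw.2 q qp).2 qd
      rw [h] at this
      exact this
    · exact h
    · exact absurd h c7

theorem finI (x : ℕ) (P : ℕ → Prop) : {n : ℕ | 1 ≤ n ∧ n ≤ x ∧ P n}.Finite :=
  (Set.finite_Iic x).subset (fun _ h => h.2.1)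

/-- powers of two minus one -/
theorem card_pow (x : ℕ) : {n : ℕ | n ≤ x ∧ ∃ a : ℕ, n + 1 = 2 ^ a}.ncard ≤ Nat.log 2 (x + 1) + 1 := by
  have hsub : {n : ℕ | n ≤ x ∧ ∃ a : ℕ, n + 1 = 2 ^ a} ⊆
      ((Finset.range (Nat.log 2 (x + 1) + 1)).image (fun a => 2 ^ a - 1) : Finset ℕ) := by
    rintro n ⟨hn, a, ha⟩
    simp only [Finset.coe_image, Set.mem_image, Finset.coe_range, Set.mem_Iio]
    refine ⟨a, ?_, by omega⟩
    have : a ≤ Nat.log 2 (x + 1) := by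
      apply Nat.le_log_of_pow_le (by norm_num)
      omega
    omega
  refine (Set.ncard_le_ncard hsub (Finset.finite_toSet _)).trans ?_
  rw [Set.ncard_coe_finset]
  exact Finset.card_image_le.trans (by simp)

theorem card_pred (x r : ℕ) : {n : ℕ | 2 ≤ n ∧ n ≤ x ∧ r < (n - 1).primeFactors.card}.ncard ≤
    {n : ℕ | 1 ≤ n ∧ n ≤ x ∧ r < n.primeFactors.card}.ncard := by
  refine Set.ncard_le_ncard_of_injOn (fun n => n - 1) ?_ ?_ (finI x _)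
  · rintro n ⟨h1, h2, h3⟩
    exact ⟨by omega, by omega, h3⟩
  · rintro a ⟨ha, _⟩ b ⟨hb, _⟩ hab
    simp only at hab
    omega

theorem card_succ (x r : ℕ) : {n : ℕ | 1 ≤ n ∧ n ≤ x ∧ r < (n + 1).primeFactors.card}.ncard ≤
    {n : ℕ | 1 ≤ n ∧ n ≤ x + 1 ∧ r < n.primeFactors.card}.ncard := by
  refine Set.ncard_le_ncard_of_injOn (fun n => n + 1) ?_ ?_ (finI (x + 1) _)
  · rintro n ⟨h1, h2, h3⟩
    exact ⟨by omega, by omega, h3⟩
  · rintro a ⟨ha, _⟩ b ⟨hb, _⟩ hab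
    simp only at hab
    omega

theorem card_mono (x r : ℕ) : {n : ℕ | 1 ≤ n ∧ n ≤ x ∧ r < n.primeFactors.card}.ncard ≤
    {n : ℕ | 1 ≤ n ∧ n ≤ x + 1 ∧ r < n.primeFactors.card}.ncard :=
  Set.ncard_le_ncard (fun _ h => ⟨h.1, by have := h.2.1; omega, h.2.2⟩) (finI (x + 1) _)

theorem rig (hSub : SubStmt) (hTwn : TwnStmt) (hEqp : EqpStmt) (hMrs : MrsStmt)
    (hSms : SmsStmt) (hOmg : OmgStmt) (hSqp : SqpStmt) (hBct : BctStmt) (hPr2 : Pr2Stmt) :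
    RigStmt := by
  obtain ⟨x₀, hx₀⟩ := hPr2
  set x₁ : ℕ := max x₀ 2 with hx₁
  have hlarge : ∀ x : ℕ, x₁ ≤ x →
      ({n : ℕ | 2 ≤ n ∧ n ≤ x ∧ ¬ (Rig n ∧ Rig (n ^ 2))}.ncard : ℝ) ≤
        x * exp (-(log x) ^ (1 / 9 : ℝ)) := by
    intro x hx
    have hx2 : 2 ≤ x := le_trans (le_max_right _ _) hx
    obtain ⟨r, y, E, hr, hy, hE1, hE, hfin⟩ := hx₀ x (le_trans (le_max_left _ _) hx)
    refine le_trans ?_ hfin
    have hcov := cover hSub hTwn hEqp hMrs x y r E hr hx2 hE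
    have hBdfin : (Bd x y r E).Finite := (Set.finite_Iic x).subset (fun _ h => h.2.1)
    have hf1 := finI x (fun n => r < n.primeFactors.card)
    have hf2 : {n : ℕ | 2 ≤ n ∧ n ≤ x ∧ r < (n - 1).primeFactors.card}.Finite :=
      (Set.finite_Iic x).subset (fun _ h => h.2.1)
    have hf3 := finI x (fun n => r < (n + 1).primeFactors.card)
    have hf4 := finI x (fun k => k.primeFactors ⊆ Finset.Icc 1 y ∧ k.primeFactors.card ≤ r)
    have hf5 := finI x (fun n => ∃ p : ℕ, y < p ∧ p ^ 2 ∣ n)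
    have hf6 : {n : ℕ | n ≤ x ∧ ∃ a : ℕ, n + 1 = 2 ^ a}.Finite :=
      (Set.finite_Iic x).subset (fun _ h => h.1)
    have hle := Set.ncard_le_ncard hcov
      ((((((hf1.union hf2).union hf3).union hf4).union hf5).union hf6).union hBdfin)
    have hu1 := Set.ncard_union_le
      {n : ℕ | 1 ≤ n ∧ n ≤ x ∧ r < n.primeFactors.card}
      {n : ℕ | 2 ≤ n ∧ n ≤ x ∧ r < (n - 1).primeFactors.card}
    have hu2 := Set.ncard_union_le
      ({n : ℕ | 1 ≤ n ∧ n ≤ x ∧ r < n.primeFactors.card} ∪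
      {n : ℕ | 2 ≤ n ∧ n ≤ x ∧ r < (n - 1).primeFactors.card})
      {n : ℕ | 1 ≤ n ∧ n ≤ x ∧ r < (n + 1).primeFactors.card}
    have hu3 := Set.ncard_union_le
      ({n : ℕ | 1 ≤ n ∧ n ≤ x ∧ r < n.primeFactors.card} ∪
      {n : ℕ | 2 ≤ n ∧ n ≤ x ∧ r < (n - 1).primeFactors.card} ∪
      {n : ℕ | 1 ≤ n ∧ n ≤ x ∧ r < (n + 1).primeFactors.card})
      {k : ℕ | 1 ≤ k ∧ k ≤ x ∧ k.primeFactors ⊆ Finset.Icc 1 y ∧ k.primeFactors.card ≤ r}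
    have hu4 := Set.ncard_union_le
      ({n : ℕ | 1 ≤ n ∧ n ≤ x ∧ r < n.primeFactors.card} ∪
      {n : ℕ | 2 ≤ n ∧ n ≤ x ∧ r < (n - 1).primeFactors.card} ∪
      {n : ℕ | 1 ≤ n ∧ n ≤ x ∧ r < (n + 1).primeFactors.card} ∪
      {k : ℕ | 1 ≤ k ∧ k ≤ x ∧ k.primeFactors ⊆ Finset.Icc 1 y ∧ k.primeFactors.card ≤ r})
      {n : ℕ | 1 ≤ n ∧ n ≤ x ∧ ∃ p : ℕ, y < p ∧ p ^ 2 ∣ n}
    have hu5 := Set.ncard_union_le
      ({n : ℕ | 1 ≤ n ∧ n ≤ x ∧ r < n.primeFactors.card} ∪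
      {n : ℕ | 2 ≤ n ∧ n ≤ x ∧ r < (n - 1).primeFactors.card} ∪
      {n : ℕ | 1 ≤ n ∧ n ≤ x ∧ r < (n + 1).primeFactors.card} ∪
      {k : ℕ | 1 ≤ k ∧ k ≤ x ∧ k.primeFactors ⊆ Finset.Icc 1 y ∧ k.primeFactors.card ≤ r} ∪
      {n : ℕ | 1 ≤ n ∧ n ≤ x ∧ ∃ p : ℕ, y < p ∧ p ^ 2 ∣ n})
      {n : ℕ | n ≤ x ∧ ∃ a : ℕ, n + 1 = 2 ^ a}
    have hu6 := Set.ncard_union_le
      ({n : ℕ | 1 ≤ n ∧ n ≤ x ∧ r < n.primeFactors.card} ∪
      {n : ℕ | 2 ≤ n ∧ n ≤ x ∧ r < (n - 1).primeFactors.card} ∪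
      {n : ℕ | 1 ≤ n ∧ n ≤ x ∧ r < (n + 1).primeFactors.card} ∪
      {k : ℕ | 1 ≤ k ∧ k ≤ x ∧ k.primeFactors ⊆ Finset.Icc 1 y ∧ k.primeFactors.card ≤ r} ∪
      {n : ℕ | 1 ≤ n ∧ n ≤ x ∧ ∃ p : ℕ, y < p ∧ p ^ 2 ∣ n} ∪
      {n : ℕ | n ≤ x ∧ ∃ a : ℕ, n + 1 = 2 ^ a}) (Bd x y r E)
    have b2 := card_pred x r
    have b3 := card_succ x r
    have b1 := card_mono x r
    have b6 := card_pow x
    have o := hOmg (x + 1) r (by omega)
    have s4 := hSms x r (Finset.Icc 1 y)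
    rw [Nat.card_Icc, Nat.add_sub_cancel] at s4
    have s5 := hSqp x y hy
    have s7 := hBct x y r E hy hE1 (by omega)
    have h2r : (0 : ℝ) < 2 ^ r := by positivity
    have o' : ({n : ℕ | 1 ≤ n ∧ n ≤ x + 1 ∧ r < n.primeFactors.card}.ncard : ℝ) ≤
        ((x : ℝ) + 1) * (1 + log ((x : ℝ) + 1)) / 2 ^ r := by
      rw [le_div_iff₀ h2r]
      push_cast at o
      exact o
    have c1 : ({n : ℕ | 1 ≤ n ∧ n ≤ x ∧ r < n.primeFactors.card}.ncard : ℝ) ≤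
        ((x : ℝ) + 1) * (1 + log ((x : ℝ) + 1)) / 2 ^ r :=
      le_trans (by exact_mod_cast b1) o'
    have c2 : ({n : ℕ | 2 ≤ n ∧ n ≤ x ∧ r < (n - 1).primeFactors.card}.ncard : ℝ) ≤
        ((x : ℝ) + 1) * (1 + log ((x : ℝ) + 1)) / 2 ^ r :=
      le_trans (by exact_mod_cast b2) c1
    have c3 : ({n : ℕ | 1 ≤ n ∧ n ≤ x ∧ r < (n + 1).primeFactors.card}.ncard : ℝ) ≤
        ((x : ℝ) + 1) * (1 + log ((x : ℝ) + 1)) / 2 ^ r :=
      le_trans (by exact_mod_cast b3) o'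
    have c4 : ({k : ℕ | 1 ≤ k ∧ k ≤ x ∧ k.primeFactors ⊆ Finset.Icc 1 y ∧
        k.primeFactors.card ≤ r}.ncard : ℝ) ≤ ((y : ℝ) * Nat.log 2 x + 1) ^ r := by
      have : (({k : ℕ | 1 ≤ k ∧ k ≤ x ∧ k.primeFactors ⊆ Finset.Icc 1 y ∧
        k.primeFactors.card ≤ r}.ncard : ℕ) : ℝ) ≤ (((y * Nat.log 2 x + 1) ^ r : ℕ) : ℝ) :=
        Nat.cast_le.2 s4
      push_cast at this
      exact this
    have c6 : ({n : ℕ | n ≤ x ∧ ∃ a : ℕ, n + 1 = 2 ^ a}.ncard : ℝ) ≤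
        (Nat.log 2 (x + 1) : ℝ) + 3 := by
      have : ({n : ℕ | n ≤ x ∧ ∃ a : ℕ, n + 1 = 2 ^ a}.ncard : ℝ) ≤
          ((Nat.log 2 (x + 1) + 1 : ℕ) : ℝ) := Nat.cast_le.2 b6
      push_cast at this
      linarith
    have htot : {n : ℕ | 2 ≤ n ∧ n ≤ x ∧ ¬ (Rig n ∧ Rig (n ^ 2))}.ncard ≤
        {n : ℕ | 1 ≤ n ∧ n ≤ x ∧ r < n.primeFactors.card}.ncard +
        {n : ℕ | 2 ≤ n ∧ n ≤ x ∧ r < (n - 1).primeFactors.card}.ncard +
        {n : ℕ | 1 ≤ n ∧ n ≤ x ∧ r < (n + 1).primeFactors.card}.ncard +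
        {k : ℕ | 1 ≤ k ∧ k ≤ x ∧ k.primeFactors ⊆ Finset.Icc 1 y ∧
          k.primeFactors.card ≤ r}.ncard +
        {n : ℕ | 1 ≤ n ∧ n ≤ x ∧ ∃ p : ℕ, y < p ∧ p ^ 2 ∣ n}.ncard +
        {n : ℕ | n ≤ x ∧ ∃ a : ℕ, n + 1 = 2 ^ a}.ncard + (Bd x y r E).ncard := by
      omega
    have htot' := (Nat.cast_le (α := ℝ)).2 htot
    push_cast at htot'
    linarith
  set C : ℝ := max 1 (exp ((log x₁) ^ (1 / 9 : ℝ))) with hC
  refine ⟨C, fun x hx => ?_⟩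
  have hx0 : (0 : ℝ) ≤ x := Nat.cast_nonneg x
  have hlogx : 0 ≤ log (x : ℝ) := Real.log_natCast_nonneg x
  rcases le_or_gt x₁ x with h | h
  · refine (hlarge x h).trans ?_
    have h1 : (1 : ℝ) ≤ C := le_max_left _ _
    have h2 : 0 ≤ (x : ℝ) * exp (-(log x) ^ (1 / 9 : ℝ)) := by positivity
    nlinarith
  · have hcard : ({n : ℕ | 2 ≤ n ∧ n ≤ x ∧ ¬ (Rig n ∧ Rig (n ^ 2))}.ncard : ℝ) ≤ x := by
      have hsub : {n : ℕ | 2 ≤ n ∧ n ≤ x ∧ ¬ (Rig n ∧ Rig (n ^ 2))} ⊆ (Finset.Icc 1 x : Finset ℕ) := by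
        rintro n ⟨h1, h2, _⟩
        simp only [Finset.coe_Icc, Set.mem_Icc]
        omega
      have := Set.ncard_le_ncard hsub (Finset.finite_toSet _)
      rw [Set.ncard_coe_finset, Nat.card_Icc, Nat.add_sub_cancel] at this
      exact_mod_cast this
    refine hcard.trans ?_
    have h1 : exp ((log x₁) ^ (1 / 9 : ℝ)) ≤ C := le_max_right _ _
    have hxx : (x : ℝ) ≤ x₁ := by exact_mod_cast h.le
    have h2 : exp ((log x) ^ (1 / 9 : ℝ)) ≤ exp ((log x₁) ^ (1 / 9 : ℝ)) := by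
      apply exp_le_exp.2
      apply Real.rpow_le_rpow hlogx _ (by norm_num)
      exact Real.log_le_log (by exact_mod_cast (by omega : 0 < x)) hxx
    have h3 : (1 : ℝ) ≤ C * exp (-(log x) ^ (1 / 9 : ℝ)) := by
      have h4 : exp ((log x) ^ (1 / 9 : ℝ)) * exp (-(log x) ^ (1 / 9 : ℝ)) = 1 := by
        rw [← exp_add, add_neg_cancel, exp_zero]
      calc (1 : ℝ) = exp ((log x) ^ (1 / 9 : ℝ)) * exp (-(log x) ^ (1 / 9 : ℝ)) := h4.symm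
        _ ≤ C * exp (-(log x) ^ (1 / 9 : ℝ)) := by
            apply mul_le_mul_of_nonneg_right (h2.trans h1) (exp_pos _).le
    calc (x : ℝ) = x * 1 := (mul_one _).symm
      _ ≤ x * (C * exp (-(log x) ^ (1 / 9 : ℝ))) := by gcongr
      _ = C * x * exp (-(log x) ^ (1 / 9 : ℝ)) := by ring

end Pool.Agent.BKW.H52
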